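import Pool.Agent.P.MP_e0c037_lc.AR.Final

namespace Pool.Agent.Results.MP_e0c037_lc.Classification

open Pool.Agent.P.MP_e0c037_lc

/-- The dichotomy for the sign of the dichromatic polynomial: at the points of `EasyAt` the sign is
computed by a polynomial-time Turing machine, and at every other point outside `LeftAt` every
counting function in the class `SharpP` reduces to the sign problem. -/
theorem result (q v : ℝ) :
    (AR.EasyAt q v → ∃ f : ℕ × List (ℕ × ℕ) → ℤ,
      Nonempty (Turing.TM2ComputableInPolyTime encGraph encInt f) ∧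
      ∀ (n : ℕ) (L : List (ℕ × ℕ)), (∀ e ∈ L, e.1 < n ∧ e.2 < n) →
        f (n, L) = (SignType.sign (dichromatic n L q v) : ℤ)) ∧
    (¬ AR.EasyAt q v → ¬ AR.LeftAt q v →
      ∀ f : List Bool → ℕ, R3.SharpP f → R3.Reduces f q v) :=
  ⟨AR.easy, AR.hard⟩

end Pool.Agent.Results.MP_e0c037_lc.Classification
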