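import Pool.Agent.P.MP_e0c037_lc.FL.Final

namespace Pool.Agent.Results.MP_e0c037_lc.FlowRootsBounded

open Pool.Agent.P.MP_e0c037_lc

/-- For all real `q ≥ exp 33488` and `v ≤ -q` the dichromatic polynomial is nonzero with sign
`(-1) ^ |E|`, for every multigraph when `v < -q` and for every bridgeless multigraph when
`v = -q`. -/
theorem result (q v : ℝ) (hq : Real.exp 33488 ≤ q) (hv : v ≤ -q) (n : ℕ) (L : List (ℕ × ℕ))
    (hL : ∀ e ∈ L, e.1 < n ∧ e.2 < n)
    (h : v < -q ∨ ∀ i < L.length,
      comps n L ((Finset.range L.length).erase i) = comps n L (Finset.range L.length)) :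
    0 < (-1) ^ L.length * dichromatic n L q v :=
  (FL.sign_dich hq hv hL).1 h

end Pool.Agent.Results.MP_e0c037_lc.FlowRootsBounded
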