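import Pool.Agent.P.MP_e0c037_lc.TwoConn

namespace Pool.Agent.Results.MP_e0c037_lc.JacksonSokalSign

open Pool.Agent.P.MP_e0c037_lc

/-- For edge weights in a closed interval inside the open diamond interval, the multivariate
dichromatic polynomial of every 2-connected multigraph with sufficiently many edges is nonzero with
sign `(-1) ^ (n - 1) * sgn (1 - q)`. -/
theorem result (q w lo hi : ℝ) (hq : q ∈ Set.Ioo (0 : ℝ) 1 ∪ Set.Ioo 1 (32 / 27))
    (hw : IsMiddleRoot q w) (h1 : q / w < lo) (h2 : hi < w) :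
    ∃ M : ℕ, ∀ (n : ℕ) (L : List (ℕ × ℕ)) (v : ℕ → ℝ), (∀ e ∈ L, e.1 < n ∧ e.2 < n) →
      TwoConnected n L → M ≤ L.length → (∀ i < L.length, v i ∈ Set.Icc lo hi) →
      0 < (-1) ^ (n + 1) * (1 - q) * multiZ n L q v :=
  sign_two hq hw h1 h2

end Pool.Agent.Results.MP_e0c037_lc.JacksonSokalSign
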