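import Pool.Agent.P.MP_e0c037_lc.R3.Main

namespace Pool.Agent.Results.MP_e0c037_lc.NegativeFlow

open Pool.Agent.P.MP_e0c037_lc

/-- For every non-integer `q` with `3 < q < 4 + 2 √2` some multigraph has a negative flow
polynomial at `q`. -/
theorem result (q : ℝ) (h1 : 3 < q) (h2 : q < 4 + 2 * √2) (hq : ∀ k : ℕ, q ≠ k) :
    ∃ (n : ℕ) (L : List (ℕ × ℕ)), (∀ e ∈ L, e.1 < n ∧ e.2 < n) ∧
      (-1) ^ L.length * dichromatic n L q (-q) < 0 :=
  (R3.hard h1.le h2 hq).1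

end Pool.Agent.Results.MP_e0c037_lc.NegativeFlow
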